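import Mathlib

/-!
# Stable multi-matchings with heavy-tailed degrees percolate, however many degree-one vertices
there are

`Pi ω` is a homogeneous Poisson point process of intensity one in `ℝ ^ d`, and every point `x`
carries an independent degree `D ω x` with law `p δ₁ + (1 - p) ν`: the pairs `(x, D ω x)` form a
Poisson process in `ℝ ^ d × ℕ` whose intensity is the product of the Lebesgue measure and of the
law of the degrees. For every `d ≥ 1` there is a law `ν` on `{2, 3, …}` such that for EVERY `p < 1`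
almost surely every stable multi-matching has an infinite component. So the answer to the question
is negative in every dimension.

Proof: `ν` gives mass `2 ^ (-i)` to a number `M i` which is much larger than the number of the
points in the ball of radius `3 * 8 ^ i`. Two points in the ball of radius `8 ^ i`, both of degree at
least `M i`, are linked, and for all large `i` there is a point of degree at least `M (i + 1)` in
this ball. These points form one component.
-/

set_option autoImplicit false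

namespace Pool.Agent.Results.MP_bae357_pr.HeavyTails

open MeasureTheory ProbabilityTheory Set Filter
open scoped ENNReal NNReal

/-- The Euclidean space `ℝ ^ d`. -/
abbrev E (d : ℕ) : Type := EuclideanSpace ℝ (Fin d)

/-- The number of the points `x` of the random set `Pi`, with degrees given by `D`, for which the
pair of the point and its degree lies in `C`. -/
noncomputable def count {d : ℕ} {Ω : Type} (Pi : Ω → Set (E d)) (D : Ω → E d → ℕ)
    (C : Set (E d × ℕ)) (ω : Ω) : ℕ∞ :=
  {x | x ∈ Pi ω ∧ (x, D ω x) ∈ C}.encard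

/-- `Pi` is a homogeneous Poisson point process of intensity one in `ℝ ^ d`, whose points `x` have
independent degrees `D ω x` with law `μ`: the pairs `(x, D ω x)` form a Poisson point process in
`ℝ ^ d × ℕ` whose intensity measure is the product of the Lebesgue measure and `μ`. -/
structure IsModel {d : ℕ} {Ω : Type} [MeasurableSpace Ω] (P : Measure Ω) (μ : Measure ℕ)
    (Pi : Ω → Set (E d)) (D : Ω → E d → ℕ) : Prop where
  meas : ∀ C : Set (E d × ℕ), MeasurableSet C → Measurable (count Pi D C)
  law : ∀ C : Set (E d × ℕ), MeasurableSet C → (volume.prod μ) C ≠ ∞ →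
    P.map (count Pi D C) =
      (poissonMeasure ((volume.prod μ) C).toNNReal).map (fun n : ℕ => (n : ℕ∞))
  indep : ∀ (n : ℕ) (C : Fin n → Set (E d × ℕ)), (∀ i, MeasurableSet (C i)) →
    Pairwise (Function.onFun Disjoint C) → iIndepFun (fun i => count Pi D (C i)) P

/-- `x` is willing to link to `y`: it has fewer than `D x` edges, or an edge of length greater than
the distance of `x` and `y`. -/
def Willing {d : ℕ} (D : E d → ℕ) (G : SimpleGraph (E d)) (x y : E d) : Prop :=
  (G.neighborSet x).encard < D x ∨ ∃ z, G.Adj x z ∧ dist x y < dist x z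

/-- `G` is a stable multi-matching on the set `S` with the degrees `D`: all edges join points of
`S`, every point `x` of `S` has at most `D x` edges, and there are no two different points of `S`
which are not adjacent and both willing to link to each other. -/
structure IsStable {d : ℕ} (S : Set (E d)) (D : E d → ℕ) (G : SimpleGraph (E d)) : Prop where
  vert : ∀ x y, G.Adj x y → x ∈ S ∧ y ∈ S
  deg : ∀ x ∈ S, (G.neighborSet x).encard ≤ D x
  stable : ∀ x ∈ S, ∀ y ∈ S, x ≠ y → ¬ G.Adj x y → ¬ (Willing D G x y ∧ Willing D G y x)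

/-- The law `p δ₁ + (1 - p) ν`. -/
noncomputable def mix (p : ℝ≥0) (ν : Measure ℕ) : Measure ℕ :=
  p • Measure.dirac 1 + (1 - p) • ν

lemma willing_of_many {d : ℕ} {S : Set (E d)} {D : E d → ℕ} {G : SimpleGraph (E d)}
    (h : IsStable S D G) {x y : E d} (hy : y ∈ S) (hn : ¬ G.Adj x y)
    (h1 : (S ∩ Metric.closedBall x (dist x y)).encard ≤ D x) : Willing D G x y := by
  by_contra hw
  unfold Willing at hw
  push Not at hw
  obtain ⟨hw1, hw2⟩ := hw
  set T := S ∩ Metric.closedBall x (dist x y) with hT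
  have hyT : y ∈ T := ⟨hy, by rw [Metric.mem_closedBall, dist_comm]⟩
  have hfin : T.Finite := by
    apply Set.finite_of_encard_le_coe h1
  have hsub : G.neighborSet x ⊆ T \ {y} := by
    intro z hz
    rw [SimpleGraph.mem_neighborSet] at hz
    refine ⟨⟨(h.vert x z hz).2, ?_⟩, ?_⟩
    · rw [Metric.mem_closedBall, dist_comm]
      exact hw2 z hz
    · intro hzy
      rw [mem_singleton_iff] at hzy
      exact hn (hzy ▸ hz)
  have h2 : (T \ {y}).encard < T.encard := by
    apply Set.Finite.encard_lt_encard (hfin.subset sdiff_subset)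
    refine ⟨sdiff_subset, fun hh => ?_⟩
    exact (hh hyT).2 rfl
  have h3 := encard_le_encard hsub
  exact absurd (h2.trans_le (h1.trans (hw1.trans h3))) (lt_irrefl _)

lemma adj_of_many {d : ℕ} {S : Set (E d)} {D : E d → ℕ} {G : SimpleGraph (E d)}
    (h : IsStable S D G) {x y : E d} (hx : x ∈ S) (hy : y ∈ S) (hxy : x ≠ y)
    (h1 : (S ∩ Metric.closedBall x (dist x y)).encard ≤ D x)
    (h2 : (S ∩ Metric.closedBall y (dist x y)).encard ≤ D y) : G.Adj x y := by
  by_contra hn
  refine h.stable x hx y hy hxy hn ⟨willing_of_many h hy hn h1, ?_⟩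
  apply willing_of_many h hx (fun h' => hn h'.symm)
  rw [dist_comm]
  exact h2

lemma poisson_mean (r : ℝ≥0) : ∫⁻ k : ℕ, (k : ℝ≥0∞) ∂(poissonMeasure r) = r := by
  have h1 : ∑' n : ℕ, ENNReal.ofReal (Real.exp (-r) * r ^ n / (n.factorial)) = 1 := by
    rw [← ENNReal.ofReal_tsum_of_nonneg (fun n => by positivity)
      (hasSum_one_poissonMeasure r).summable, (hasSum_one_poissonMeasure r).tsum_eq,
      ENNReal.ofReal_one]
  rw [poissonMeasure, lintegral_sum_measure]
  simp_rw [lintegral_smul_measure, lintegral_dirac, smul_eq_mul]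
  rw [tsum_eq_zero_add' ENNReal.summable]
  simp only [Nat.cast_zero, mul_zero, zero_add]
  have h2 : ∀ n : ℕ, ENNReal.ofReal (Real.exp (-r) * r ^ (n + 1) / ((n + 1).factorial)) *
      ((n + 1 : ℕ) : ℝ≥0∞) =
      r * ENNReal.ofReal (Real.exp (-r) * r ^ n / (n.factorial)) := by
    intro n
    rw [← ENNReal.ofReal_coe_nnreal, ← ENNReal.ofReal_natCast, ← ENNReal.ofReal_mul (by positivity),
      ← ENNReal.ofReal_mul (by positivity)]
    congr 1
    rw [Nat.factorial_succ]
    have : ((n.factorial : ℕ) : ℝ) ≠ 0 := by positivity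
    push_cast
    field_simp
    ring
  rw [tsum_congr h2, ENNReal.tsum_mul_left, h1, mul_one]

lemma poisson_tail (r : ℝ≥0) (M : ℕ) (hM : 0 < M) :
    poissonMeasure r {k : ℕ | M < k} ≤ r / M := by
  have h := meas_ge_le_lintegral_div (μ := poissonMeasure r) (f := fun k : ℕ => (k : ℝ≥0∞))
    (measurable_of_countable _).aemeasurable (ε := (M : ℝ≥0∞)) (by
      simp; omega) (by simp)
  rw [poisson_mean] at h
  refine le_trans (measure_mono ?_) h
  intro k hk
  simp only [mem_ofPred_eq] at hk ⊢
  exact_mod_cast hk.le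

lemma infinite_component {d : ℕ} {S : Set (E d)} {D : E d → ℕ} {G : SimpleGraph (E d)}
    (h : IsStable S D G) (M : ℕ → ℕ) (hM : StrictMono M) (r : ℕ → ℝ) (hr : Monotone r) (i₀ : ℕ)
    (hA : ∀ i, i₀ ≤ i → ∃ x ∈ S, x ∈ Metric.closedBall (0 : E d) (r i) ∧ M (i + 1) ≤ D x)
    (hB : ∀ i, i₀ ≤ i → (S ∩ Metric.closedBall (0 : E d) (3 * r i)).encard ≤ M i) :
    ∃ x ∈ S, {y | G.Reachable x y}.Infinite := by
  choose! x hxS hxr hxD using hA
  have key : ∀ i, i₀ ≤ i → G.Reachable (x i) (x (i + 1)) := by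
    intro i hi
    by_cases hxx : x i = x (i + 1)
    · rw [hxx]
    · have hi1 : i₀ ≤ i + 1 := by omega
      have d1 : dist (x i) 0 ≤ r (i + 1) := (hxr i hi).trans (hr (by omega))
      have d2 : dist (x (i + 1)) 0 ≤ r (i + 1) := hxr (i + 1) hi1
      have d3 : dist (x i) (x (i + 1)) ≤ 2 * r (i + 1) := by
        have := dist_triangle_right (x i) (x (i + 1)) 0
        linarith
      have hsub : ∀ z : E d, dist z 0 ≤ r (i + 1) →
          Metric.closedBall z (dist (x i) (x (i + 1))) ⊆
            Metric.closedBall (0 : E d) (3 * r (i + 1)) := by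
        intro z hz
        apply Metric.closedBall_subset_closedBall'
        linarith
      have c1 : (S ∩ Metric.closedBall (x i) (dist (x i) (x (i + 1)))).encard ≤ (D (x i) : ℕ∞) := by
        refine (encard_le_encard (inter_subset_inter_right S (hsub _ d1))).trans ?_
        refine (hB (i + 1) hi1).trans ?_
        exact_mod_cast hxD i hi
      have c2 : (S ∩ Metric.closedBall (x (i + 1)) (dist (x i) (x (i + 1)))).encard ≤
          (D (x (i + 1)) : ℕ∞) := by
        refine (encard_le_encard (inter_subset_inter_right S (hsub _ d2))).trans ?_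
        refine (hB (i + 1) hi1).trans ?_
        have := hxD (i + 1) hi1
        have h3 : M (i + 1) ≤ M (i + 1 + 1) := (hM.monotone (by omega))
        exact_mod_cast h3.trans this
      exact (adj_of_many h (hxS i hi) (hxS _ hi1) hxx c1 c2).reachable
  have key2 : ∀ j, G.Reachable (x i₀) (x (i₀ + j)) := by
    intro j
    induction j with
    | zero => exact SimpleGraph.Reachable.refl _
    | succ j ih => exact ih.trans (key (i₀ + j) (by omega))
  refine ⟨x i₀, hxS i₀ le_rfl, fun hfin => ?_⟩
  obtain ⟨b, hb⟩ := (hfin.image D).bddAbove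
  have h1 : D (x (i₀ + b)) ≤ b := hb ⟨x (i₀ + b), key2 b, rfl⟩
  have h2 := hxD (i₀ + b) (by omega)
  have h3 := hM.id_le (i₀ + b + 1)
  simp only [id] at h3
  omega

section prob

variable {d : ℕ} {Ω : Type} [MeasurableSpace Ω] {P : Measure Ω} {μ : Measure ℕ}
  {Pi : Ω → Set (E d)} {D : Ω → E d → ℕ}

lemma prob_count (h : IsModel P μ Pi D) {C : Set (E d × ℕ)} (hC : MeasurableSet C)
    (hf : (volume.prod μ) C ≠ ∞) (S : Set ℕ∞) :
    P {ω | count Pi D C ω ∈ S} =
      poissonMeasure ((volume.prod μ) C).toNNReal {k : ℕ | (k : ℕ∞) ∈ S} := by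
  have hS : MeasurableSet S := (Set.to_countable S).measurableSet
  have h1 : P {ω | count Pi D C ω ∈ S} = P.map (count Pi D C) S := by
    rw [Measure.map_apply (h.meas C hC) hS]
    rfl
  rw [h1, h.law C hC hf, Measure.map_apply (measurable_of_countable _) hS]
  rfl

/-- few points in a set of finite volume -/
lemma prob_many [SFinite μ] [IsProbabilityMeasure μ] (h : IsModel P μ Pi D) {A : Set (E d)}
    (hA : MeasurableSet A) (hf : volume A ≠ ∞) (M : ℕ) (hM : 0 < M) :
    P {ω | ¬ (Pi ω ∩ A).encard ≤ M} ≤ volume A / M := by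
  have e : (volume.prod μ) (A ×ˢ univ) = volume A := by
    rw [Measure.prod_prod, measure_univ, mul_one]
  have h1 := prob_count h (C := A ×ˢ univ) (hA.prod MeasurableSet.univ) (by rw [e]; exact hf)
    {n | ¬ n ≤ M}
  have h2 : {ω | ¬ (Pi ω ∩ A).encard ≤ M} = {ω | count Pi D (A ×ˢ univ) ω ∈ {n | ¬ n ≤ (M : ℕ∞)}} := by
    ext ω
    unfold count
    simp only [mem_ofPred_eq, mem_prod, mem_univ, and_true]
    rfl
  rw [h2, h1, e]
  have h3 : {k : ℕ | (k : ℕ∞) ∈ {n : ℕ∞ | ¬ n ≤ M}} = {k : ℕ | M < k} := by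
    ext k
    simp only [mem_ofPred_eq, not_le]
    exact_mod_cast Iff.rfl
  rw [h3]
  refine (poisson_tail _ M hM).trans ?_
  rw [ENNReal.coe_toNNReal hf]

/-- there is a point of large degree -/
lemma prob_none [SFinite μ] (h : IsModel P μ Pi D) {A : Set (E d)} {T : Set ℕ}
    (hA : MeasurableSet A) (hf : volume A ≠ ∞) (hT : μ T ≠ ∞) :
    P {ω | ¬ ∃ x ∈ Pi ω, x ∈ A ∧ D ω x ∈ T} =
      ENNReal.ofReal (Real.exp (- (volume A * μ T).toReal)) := by
  have e : (volume.prod μ) (A ×ˢ T) = volume A * μ T := Measure.prod_prod _ _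
  have h1 := prob_count h (C := A ×ˢ T) (hA.prod (Set.to_countable T).measurableSet)
    (by rw [e]; exact ENNReal.mul_ne_top hf hT) {0}
  have h2 : {ω | ¬ ∃ x ∈ Pi ω, x ∈ A ∧ D ω x ∈ T} = {ω | count Pi D (A ×ˢ T) ω ∈ ({0} : Set ℕ∞)} := by
    ext ω
    unfold count
    simp only [mem_ofPred_eq, mem_singleton_iff, encard_eq_zero, mem_prod]
    rw [eq_empty_iff_forall_notMem]
    simp only [mem_ofPred_eq]
    push Not
    constructor
    · intro hh x hx hxA
      exact hh x hx hxA
    · intro hh x hx hxA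
      exact hh x hx hxA
  rw [h2, h1, e]
  have h3 : {k : ℕ | (k : ℕ∞) ∈ ({0} : Set ℕ∞)} = {0} := by
    ext k
    simp
  rw [h3, poissonMeasure_singleton]
  simp
  rfl

end prob

lemma mix_prob (p : ℝ≥0) (hp : p < 1) (ν : Measure ℕ) [IsProbabilityMeasure ν] :
    IsProbabilityMeasure (mix p ν) := by
  constructor
  unfold mix
  rw [Measure.add_apply, Measure.smul_apply, Measure.smul_apply, measure_univ, measure_univ]
  simp only [ENNReal.smul_def, smul_eq_mul, mul_one]
  rw [← ENNReal.coe_add, add_tsub_cancel_of_le hp.le, ENNReal.coe_one]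

lemma mix_ge (p : ℝ≥0) (ν : Measure ℕ) (T : Set ℕ) : ((1 - p : ℝ≥0) : ℝ≥0∞) * ν T ≤ mix p ν T := by
  unfold mix
  rw [Measure.add_apply, Measure.smul_apply, Measure.smul_apply]
  simp only [ENNReal.smul_def, smul_eq_mul]
  exact le_add_self

/-- The mass `2 ^ (-(i + 1))` at the point `M i`. -/
noncomputable def law (M : ℕ → ℕ) : Measure ℕ :=
  Measure.sum (fun i : ℕ => (2⁻¹ : ℝ≥0∞) ^ (i + 1) • Measure.dirac (M i))

lemma law_prob (M : ℕ → ℕ) : IsProbabilityMeasure (law M) := by
  constructor
  unfold law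
  rw [Measure.sum_apply _ MeasurableSet.univ]
  simp only [Measure.smul_apply, measure_univ, smul_eq_mul, mul_one]
  rw [ENNReal.tsum_geometric_add_one, ENNReal.one_sub_inv_two, inv_inv]
  exact ENNReal.inv_mul_cancel (by norm_num) (by norm_num)

lemma law_two (M : ℕ → ℕ) (hM : ∀ i, 2 ≤ M i) : law M {k | k < 2} = 0 := by
  unfold law
  rw [Measure.sum_apply _ (Set.to_countable _).measurableSet, ENNReal.tsum_eq_zero]
  intro i
  rw [Measure.smul_apply, Measure.dirac_apply' _ (Set.to_countable _).measurableSet]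
  have := hM i
  simp
  omega

lemma law_ge (M : ℕ → ℕ) (j : ℕ) : (2⁻¹ : ℝ≥0∞) ^ (j + 1) ≤ law M {k | M j ≤ k} := by
  unfold law
  rw [Measure.sum_apply _ (Set.to_countable _).measurableSet]
  refine le_trans ?_ (ENNReal.le_tsum j)
  rw [Measure.smul_apply, Measure.dirac_apply' _ (Set.to_countable _).measurableSet]
  have : M j ∈ {k : ℕ | M j ≤ k} := le_refl (M j)
  simp [this]

lemma vol_ball {d : ℕ} (r : ℝ) (hr : 0 ≤ r) :
    volume (Metric.closedBall (0 : E d) r) =
      ENNReal.ofReal (r ^ d * (volume (Metric.ball (0 : E d) 1)).toReal) := by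
  have h1 : volume (Metric.ball (0 : E d) 1) ≠ ∞ := measure_ball_lt_top.ne
  rw [Measure.addHaar_closedBall _ _ hr, finrank_euclideanSpace_fin,
    ENNReal.ofReal_mul (by positivity), ENNReal.ofReal_toReal h1]

/-- **A heavy-tailed law of the degrees.** In every dimension `d ≥ 1` there is a law `ν` on
`{2, 3, …}` such that, for every `p < 1`, the stable multi-matching with the degree law
`p δ₁ + (1 - p) ν` almost surely has an infinite component. -/
theorem result (d : ℕ) (hd : 1 ≤ d) : ∃ ν : Measure ℕ, IsProbabilityMeasure ν ∧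
    ν {k | k < 2} = 0 ∧ ∀ p : ℝ≥0, p < 1 →
      ∀ (Ω : Type) [MeasurableSpace Ω] (P : Measure Ω) [IsProbabilityMeasure P]
        (Pi : Ω → Set (E d)) (D : Ω → E d → ℕ), IsModel P (mix p ν) Pi D →
        ∀ᵐ ω ∂P, ∀ G : SimpleGraph (E d), IsStable (Pi ω) (D ω) G →
          ∃ x ∈ Pi ω, {y | G.Reachable x y}.Infinite := by
  set v : ℝ := (volume (Metric.ball (0 : E d) 1)).toReal with hv
  have hv0 : 0 < v := by
    rw [hv]
    exact ENNReal.toReal_pos (Metric.measure_ball_pos _ _ one_pos).ne' measure_ball_lt_top.ne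
  obtain ⟨K, hK⟩ := exists_nat_ge ((3 : ℝ) ^ d * v)
  set M : ℕ → ℕ := fun i => (K + 2) * 16 ^ (d * i) with hM
  have hM2 : ∀ i, 2 ≤ M i := by
    intro i
    have : 1 ≤ 16 ^ (d * i) := Nat.one_le_pow _ _ (by norm_num)
    calc 2 ≤ (K + 2) * 1 := by omega
      _ ≤ (K + 2) * 16 ^ (d * i) := Nat.mul_le_mul_left _ this
  have hMm : StrictMono M := by
    apply strictMono_nat_of_lt_succ
    intro i
    apply Nat.mul_lt_mul_of_pos_left _ (by omega)
    apply Nat.pow_lt_pow_right (by norm_num)
    nlinarith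
  refine ⟨law M, law_prob M, law_two M hM2, ?_⟩
  intro p hp Ω _ P _ Pi D h
  have := law_prob M
  have := mix_prob p hp (law M)
  set r : ℕ → ℝ := fun i => 8 ^ i with hr
  have hrm : Monotone r := by
    apply monotone_nat_of_le_succ
    intro i
    simp only [hr]
    rw [pow_succ]
    have : (0 : ℝ) < 8 ^ i := by positivity
    linarith
  have hr0 : ∀ i, 0 ≤ r i := fun i => by simp only [hr]; positivity
  have hdi : ∀ i : ℕ, ∀ b : ℝ, 1 ≤ b → b ^ i ≤ b ^ (d * i) := by
    intro i b hb
    apply pow_le_pow_right₀ hb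
    nlinarith
  -- the events
  have hB : ∀ i, P {ω | ¬ (Pi ω ∩ Metric.closedBall (0 : E d) (3 * r i)).encard ≤ M i} ≤
      ENNReal.ofReal ((1 / 2) ^ i) := by
    intro i
    have hf : volume (Metric.closedBall (0 : E d) (3 * r i)) ≠ ∞ := measure_closedBall_lt_top.ne
    refine (prob_many h Metric.isClosed_closedBall.measurableSet hf (M i) (by
      have := hM2 i; omega)).trans ?_
    rw [vol_ball _ (by have := hr0 i; positivity)]
    have hMi : (0 : ℝ) < M i := by
      have := hM2 i
      exact_mod_cast (by omega : 0 < M i)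
    rw [← ENNReal.ofReal_natCast, ← ENNReal.ofReal_div_of_pos hMi]
    apply ENNReal.ofReal_le_ofReal
    rw [div_le_iff₀ hMi]
    have e1 : (3 * r i) ^ d * v = 3 ^ d * v * 8 ^ (d * i) := by
      simp only [hr]
      rw [mul_pow, ← pow_mul, mul_comm i d]
      ring
    have e2 : ((M i : ℕ) : ℝ) = (K + 2) * 16 ^ (d * i) := by
      simp only [hM]
      push_cast
      ring
    rw [← hv, e1, e2]
    have h3 : (8 : ℝ) ^ (d * i) ≤ (1 / 2) ^ i * 16 ^ (d * i) := by
      have h4 := hdi i 2 (by norm_num)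
      have h5 : (16 : ℝ) ^ (d * i) = 2 ^ (d * i) * 8 ^ (d * i) := by
        rw [← mul_pow]
        norm_num
      rw [h5, one_div, inv_pow]
      have h6 : (0 : ℝ) < 8 ^ (d * i) := by positivity
      have h7 : (0 : ℝ) < 2 ^ i := by positivity
      rw [← mul_assoc]
      have h8 : 1 ≤ ((2 : ℝ) ^ i)⁻¹ * 2 ^ (d * i) := by
        rw [inv_mul_eq_div, le_div_iff₀ h7]
        linarith
      nlinarith
    calc 3 ^ d * v * 8 ^ (d * i) ≤ (K + 2) * 8 ^ (d * i) := by
          apply mul_le_mul_of_nonneg_right (by linarith) (by positivity)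
      _ ≤ (K + 2) * ((1 / 2) ^ i * 16 ^ (d * i)) := by
          apply mul_le_mul_of_nonneg_left h3 (by positivity)
      _ = (1 / 2) ^ i * ((K + 2) * 16 ^ (d * i)) := by ring
  have hq : (0 : ℝ) < 1 - p := by
    have : (p : ℝ) < 1 := by exact_mod_cast hp
    linarith
  set c : ℝ := 4 / (v * (1 - p)) with hc
  have hA : ∀ i, P {ω | ¬ ∃ x ∈ Pi ω, x ∈ Metric.closedBall (0 : E d) (r i) ∧
      D ω x ∈ {k | M (i + 1) ≤ k}} ≤ ENNReal.ofReal (c * (1 / 4) ^ i) := by
    intro i
    have hf : volume (Metric.closedBall (0 : E d) (r i)) ≠ ∞ := measure_closedBall_lt_top.ne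
    rw [prob_none h Metric.isClosed_closedBall.measurableSet hf (measure_ne_top _ _)]
    apply ENNReal.ofReal_le_ofReal
    have h1 : v * (1 - p) / 4 * 4 ^ i ≤ (volume (Metric.closedBall (0 : E d) (r i)) *
        (mix p (law M)) {k | M (i + 1) ≤ k}).toReal := by
      rw [ENNReal.toReal_mul, vol_ball _ (hr0 i), ENNReal.toReal_ofReal (by
        have := hr0 i; positivity), ← hv]
      have h2 : (1 - p) * (1 / 2) ^ (i + 2) ≤ ((mix p (law M)) {k | M (i + 1) ≤ k}).toReal := by
        have h3 : ENNReal.ofReal ((1 - p) * (1 / 2) ^ (i + 2)) ≤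
            (mix p (law M)) {k | M (i + 1) ≤ k} := by
          refine le_trans ?_ (mix_ge p (law M) _)
          rw [ENNReal.ofReal_mul hq.le]
          apply mul_le_mul'
          · rw [ENNReal.ofReal_le_iff_le_toReal ENNReal.coe_ne_top]
            simp only [ENNReal.coe_toReal]
            rw [NNReal.coe_sub hp.le, NNReal.coe_one]
          · refine le_trans (le_of_eq ?_) (law_ge M (i + 1))
            rw [one_div, ENNReal.ofReal_pow (by norm_num), ENNReal.ofReal_inv_of_pos (by norm_num)]
            norm_num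
        exact (ENNReal.ofReal_le_iff_le_toReal (measure_ne_top _ _)).1 h3
      have h4 : (8 : ℝ) ^ i ≤ r i ^ d := by
        simp only [hr]
        rw [← pow_mul, mul_comm i d]
        exact hdi i 8 (by norm_num)
      have h5 : (8 : ℝ) ^ i = 4 ^ i * 2 ^ i := by
        rw [← mul_pow]
        norm_num
      calc v * (1 - p) / 4 * 4 ^ i = (8 ^ i * v) * ((1 - p) * (1 / 2) ^ (i + 2)) := by
            rw [h5, one_div, inv_pow, pow_add]
            field_simp
            ring
        _ ≤ (r i ^ d * v) * ((mix p (law M)) {k | M (i + 1) ≤ k}).toReal := by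
            apply mul_le_mul _ h2 (by positivity) (by have := hr0 i; positivity)
            exact mul_le_mul_of_nonneg_right h4 hv0.le
    have h6 : Real.exp (-(v * (1 - p) / 4 * 4 ^ i)) ≤ c * (1 / 4) ^ i := by
      have h7 : 0 < v * (1 - p) / 4 * 4 ^ i := by positivity
      rw [Real.exp_neg]
      have h8 : v * (1 - p) / 4 * 4 ^ i ≤ Real.exp (v * (1 - p) / 4 * 4 ^ i) := by
        have := Real.add_one_le_exp (v * (1 - p) / 4 * 4 ^ i)
        linarith
      calc (Real.exp (v * (1 - p) / 4 * 4 ^ i))⁻¹ ≤ (v * (1 - p) / 4 * 4 ^ i)⁻¹ :=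
            inv_anti₀ h7 h8
        _ = c * (1 / 4) ^ i := by
            rw [hc, one_div, inv_pow]
            field_simp
    refine le_trans ?_ h6
    apply Real.exp_le_exp.2
    linarith
  have sB : ∑' i, P {ω | ¬ (Pi ω ∩ Metric.closedBall (0 : E d) (3 * r i)).encard ≤ M i} ≠ ∞ := by
    have hs : Summable (fun i : ℕ => ((1 : ℝ) / 2) ^ i) :=
      summable_geometric_of_lt_one (by norm_num) (by norm_num)
    exact ne_top_of_le_ne_top hs.tsum_ofReal_ne_top (ENNReal.tsum_le_tsum hB)
  have sA : ∑' i, P {ω | ¬ ∃ x ∈ Pi ω, x ∈ Metric.closedBall (0 : E d) (r i) ∧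
      D ω x ∈ {k | M (i + 1) ≤ k}} ≠ ∞ := by
    have hs : Summable (fun i : ℕ => c * ((1 : ℝ) / 4) ^ i) :=
      (summable_geometric_of_lt_one (by norm_num) (by norm_num)).mul_left c
    exact ne_top_of_le_ne_top hs.tsum_ofReal_ne_top (ENNReal.tsum_le_tsum hA)
  filter_upwards [ae_eventually_notMem sA, ae_eventually_notMem sB] with ω hω1 hω2
  intro G hG
  obtain ⟨i₁, hi₁⟩ := eventually_atTop.1 hω1
  obtain ⟨i₂, hi₂⟩ := eventually_atTop.1 hω2
  apply infinite_component hG M hMm r hrm (max i₁ i₂)
  · intro i hi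
    have := hi₁ i (le_trans (le_max_left _ _) hi)
    simp only [not_not] at this
    exact this
  · intro i hi
    have := hi₂ i (le_trans (le_max_right _ _) hi)
    simp only [not_not] at this
    exact this

end Pool.Agent.Results.MP_bae357_pr.HeavyTails
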